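import Mathlib

namespace Pool.Agent.Results.MP_47cbd1_al.Q1

open ProfiniteGrp ProfiniteGrp.ProfiniteCompletion CategoryTheory

/-- the free profinite group on two generators: profinite completion of the free group -/
noncomputable abbrev F2hat : ProfiniteGrp.{0} := completion (GrpCat.of (FreeGroup (Fin 2)))

/-- the images of the two free generators -/
noncomputable def gen (i : Fin 2) : F2hat := etaFn (GrpCat.of (FreeGroup (Fin 2))) (FreeGroup.of i)

theorem result :
    ∃ f : F2hat, f ∈ (commutator F2hat).topologicalClosure ∧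
      (∃ φ : F2hat →ₜ* F2hat, φ (gen 0) = gen 0 ∧ φ (gen 1) = f⁻¹ * gen 1 * f) ∧
      ∀ φ : F2hat →ₜ* F2hat, φ (gen 0) = gen 0 → φ (gen 1) = f⁻¹ * gen 1 * f →
        ¬ Function.Surjective φ := by
  classical
  have hlift : ∀ (P : ProfiniteGrp.{0}) (v : Fin 2 → P),
      ∃ θ : F2hat →ₜ* P, ∀ i, θ (gen i) = v i := by
    intro P v
    refine ⟨(lift (G := GrpCat.of (FreeGroup (Fin 2))) (P := P)
      (GrpCat.ofHom (FreeGroup.lift v))).hom, fun i => ?_⟩
    have h := lift_eta (G := GrpCat.of (FreeGroup (Fin 2))) (P := P)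
      (GrpCat.ofHom (FreeGroup.lift v))
    have h2 := ConcreteCategory.congr_hom h (FreeGroup.of i)
    have h3 : (FreeGroup.lift v) (FreeGroup.of i) = v i := FreeGroup.lift_apply_of
    exact h2.trans h3
  refine ⟨gen 1 * gen 0 * (gen 1)⁻¹ * (gen 0)⁻¹, ?_, ?_, ?_⟩
  · apply Subgroup.le_topologicalClosure
    exact Subgroup.commutator_mem_commutator (Subgroup.mem_top _) (Subgroup.mem_top _)
  · obtain ⟨θ, hθ⟩ := hlift F2hat ![gen 0, (gen 1 * gen 0 * (gen 1)⁻¹ * (gen 0)⁻¹)⁻¹ * gen 1 *
      (gen 1 * gen 0 * (gen 1)⁻¹ * (gen 0)⁻¹)]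
    exact ⟨θ, hθ 0, hθ 1⟩
  · intro φ h0 h1 hs
    let P : ProfiniteGrp.{0} := ProfiniteGrp.ofFiniteGrp (FiniteGrp.of (Equiv.Perm (Fin 3)))
    let a : Equiv.Perm (Fin 3) := Equiv.swap 0 1
    let b : Equiv.Perm (Fin 3) := Equiv.swap 1 2
    obtain ⟨θ, hθ⟩ := hlift P ![a, b]
    have ha : θ (gen 0) = a := hθ 0
    have hb : θ (gen 1) = b := hθ 1
    let a' : P := a
    let b' : P := b
    have key : ∀ z : F2hat, θ (φ z) * a' = a' * θ (φ z) := by
      intro z
      refine (denseRange (GrpCat.of (FreeGroup (Fin 2)))).induction_on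
        (p := fun z => θ (φ z) * a' = a' * θ (φ z)) z ?_ ?_
      · apply isClosed_eq
        · exact (θ.continuous_toFun.comp φ.continuous_toFun).mul continuous_const
        · exact continuous_const.mul (θ.continuous_toFun.comp φ.continuous_toFun)
      · intro w
        let e : FreeGroup (Fin 2) →* F2hat := (eta (GrpCat.of (FreeGroup (Fin 2)))).hom
        change Commute (θ (φ (e w))) a'
        induction w using FreeGroup.induction_on with
        | C1 => simp only [map_one]; exact Commute.one_left _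
        | of i =>
          have : e (FreeGroup.of i) = gen i := rfl
          rw [this]
          fin_cases i
          · change Commute (θ (φ (gen 0))) a'
            rw [h0, ha]
          · change Commute (θ (φ (gen 1))) a'
            rw [h1]
            simp only [map_mul, map_inv, ha, hb]
            change Commute ((b * a * b⁻¹ * a⁻¹)⁻¹ * b * (b * a * b⁻¹ * a⁻¹)) a
            change ((b * a * b⁻¹ * a⁻¹)⁻¹ * b * (b * a * b⁻¹ * a⁻¹)) * a =
              a * ((b * a * b⁻¹ * a⁻¹)⁻¹ * b * (b * a * b⁻¹ * a⁻¹))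
            decide
        | inv_of i hi => simp only [map_inv]; exact hi.inv_left
        | mul u v hu hv => simp only [map_mul]; exact hu.mul_left hv
    obtain ⟨z, hz⟩ := hs (gen 1)
    have := key z
    rw [hz, hb] at this
    have h2 : b * a = a * b := this
    revert h2
    decide

end Pool.Agent.Results.MP_47cbd1_al.Q1
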